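import Pool.Agent.Lib.helper31.NumIdx

set_option autoImplicit false

namespace Pool.Agent.Results.MP_95d40a_an.ComplexBelowKappa

open scoped ENNReal
open Pool.Agent.Lib.helper31.NumIdx

/-- For every index set with at least two points and every `1 < p < ∞`, `p ≠ 2`, the numerical
index of the complex space `ℓ_p(ι)` is strictly below `κ_p`. -/
theorem result (ι : Type) [Nontrivial ι] (p : ℝ≥0∞) [Fact (1 ≤ p)] (h1 : 1 < p)
    (ht : p ≠ ⊤) (h2 : p ≠ 2) :
    numIndex ℂ (lp (fun _ : ι => ℂ) p) < kappa p.toReal := by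
  obtain ⟨T, -, hn, hv⟩ := exists_op ℂ ι p h1 ht h2
  refine lt_of_le_of_lt (csInf_le ⟨0, ?_⟩ ⟨T, hn, rfl⟩) hv
  rintro _ ⟨S, -, rfl⟩
  exact numRadius_nonneg ℂ _ S

end Pool.Agent.Results.MP_95d40a_an.ComplexBelowKappa
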